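import Mathlib
import Pool.Agent.H33.G.R_seed8.W262.RK.Defs

/-!
# Ranks in families with full 2-torsion: statements of the parts
-/

namespace Pool.Agent.W262.RK

open Finset

/-- LS: duality form of the large sieve for Jacobi symbols. Proof: `Pool.Agent.H591R2.large_sieve`
(file `Pool/Agent/H591R2/Char.lean`) with coefficients; `H591R2.partial_sum_mul` is used as it is. -/
def LS : Prop := ∀ (D : Finset ℕ) (x Y : ℕ) (c : ℕ → ℝ),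
  (∀ d ∈ D, Odd d ∧ Squarefree d ∧ d ≤ Y) →
  ∑ d ∈ D, (∑ l ∈ range x, c l * Jr l d) ^ 2 ≤
    ((x : ℝ) + D.card * (Y : ℝ) ^ 2) * ∑ l ∈ range x, c l ^ 2

/-- BL: bilinear sums of Jacobi symbols, with a power saving in the smaller variable. -/
def BL : Prop := ∃ (C : ℝ) (E : ℕ), ∀ M N : ℕ, 1 ≤ M → 1 ≤ N → ∀ a b : ℕ → ℝ,
  (∀ m, |a m| ≤ 1) → (∀ m, |b m| ≤ 1) → (∀ m, a m ≠ 0 → Odd m ∧ Squarefree m) →
  (∀ m, b m ≠ 0 → Odd m ∧ Squarefree m) →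
  |∑ m ∈ Ioc M (2 * M), ∑ n ∈ Ioc N (2 * N), a m * b n * Jr m n| ≤
    C * (Real.log (4 * M * N)) ^ E * (M * N) *
      ((M : ℝ) ^ (-(1 / 6 : ℝ)) + (N : ℝ) ^ (-(1 / 6 : ℝ)))

/-- BLW: the same with weights `1/m`, by dyadic decomposition. -/
def BLW : Prop := ∃ (C : ℝ) (E : ℕ), ∀ V Y : ℕ, 2 ≤ V → V ≤ Y → ∀ a b : ℕ → ℝ,
  (∀ m, |a m| ≤ 1 / (m : ℝ)) → (∀ m, |b m| ≤ 1 / (m : ℝ)) →
  (∀ m, a m ≠ 0 → Odd m ∧ Squarefree m) → (∀ m, b m ≠ 0 → Odd m ∧ Squarefree m) →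
  |∑ m ∈ Ioc V Y, ∑ n ∈ Ioc V Y, a m * b n * Jr m n| ≤
    C * (Real.log Y) ^ E * (V : ℝ) ^ (-(1 / 6 : ℝ))

/-- UB: upper bound for `∑ χ(p)/p` for the real characters that occur. -/
def UB : Prop := ∀ (κ : ℤ) (z : ℕ), κ ≠ 0 → 2 ≤ z → κ.natAbs ≤ z → ∃ C : ℝ,
  ∀ (y r : ℕ) (e : Bool), z < y → 1 < r → Squarefree r → (∀ p : ℕ, p.Prime → p ∣ r → z < p) →
    ∑ p ∈ PS z y, Jr p r * Jr κ p * x4 e p / (p : ℝ) ≤ Real.log (Real.log r) + C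

/-- EP: bound for a twisted Euler product. -/
def EP : Prop := ∀ (w : ℝ) (c : ℕ) (κ : ℤ), 0 < w → w ≤ 1 / 2 → κ ≠ 0 → ∃ z0 : ℕ, ∀ z, z0 ≤ z →
  ∃ C : ℝ, ∀ (y R r : ℕ) (e : Bool), z < y → R ≠ 0 → 1 < r → Squarefree r →
    (∀ p : ℕ, p.Prime → p ∣ r → z < p) →
    |∑ d ∈ (PP z y).divisors.filter (fun d => d.Coprime R),
        gw w c d * (Jr d r * Jr κ d * x4 e d)| ≤ C * (Real.log r) ^ w * hh R

/-- FULL: the sums of the weights over all, the small and the large divisors. -/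
def FULL : Prop := ∀ (w : ℝ) (c : ℕ), 0 < w → w ≤ 1 / 2 → ∃ z0 : ℕ, ∀ z, z0 ≤ z → ∃ C : ℝ,
  (∀ y, z < y → ∑ d ∈ (PP z y).divisors, gw w c d * hh d ≤ C * (Real.log y) ^ w) ∧
  (∀ y V : ℕ, z < y → 2 ≤ V →
    ∑ d ∈ (PP z y).divisors.filter (fun d => d ≤ V), gw w c d * hh d ≤ C * (Real.log V) ^ w) ∧
  (∀ y Y : ℕ, z < y → 1 ≤ Y →
    ∑ d ∈ (PP z y).divisors.filter (fun d => Y < d), gw w c d * hh d ≤
      C * Real.exp (-(Real.log Y / Real.log y)) * (Real.log y) ^ 2)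

/-- AT: the abstract bound for sums of products of Jacobi symbols (linked variables). -/
def AT : Prop := ∀ (ι : Type) [Fintype ι] [DecidableEq ι] (w : ι → ℝ) (L : ι → ι → Bool)
  (κ : ι → ℤ) (c : ℕ) (K : ℝ),
  (∀ i, 0 < w i ∧ w i ≤ 1 / 2) → (∀ i, L i i = false) → (∀ i, κ i ≠ 0) →
  (∀ U : Finset ι, (∀ i ∈ U, ∀ j ∈ U, L i j = L j i) → ∑ i ∈ U, w i ≤ K) →
  ∃ z0 : ℕ, ∀ z, z0 ≤ z → ∃ C : ℝ, ∀ y, z < y →
    |∑ d ∈ Tup ι z y, (∏ i, gw (w i) c (d i)) * Sym L κ d| ≤ C * (Real.log y) ^ K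

/-- EXP: expansion of the conditions of `NN` into symbols. -/
def EXP : Prop := ∀ (J : Type) [Fintype J] [DecidableEq J] (cls : J → Fin 3) (κ : J → ℤ) (c : ℕ)
  (z y : ℕ), 2 ≤ z → (∀ j, κ j ≠ 0) → (∀ j, (κ j).natAbs ≤ z) →
  ∑ s ∈ Tup J z y, (NN cls κ s : ℝ) * ∏ j, gw 1 c (s j) =
    ∑ d ∈ Tup (J × Bool × Bool) z y, (∏ i, gw (1 / 2) c (d i)) * Sym (LJ cls) (κJ κ) d

/-- COMB: the largest unlinked set. -/
def COMB : Prop := ∀ (J : Type) [Fintype J] [DecidableEq J] (cls : J → Fin 3) (n : ℕ),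
  (∀ k, (univ.filter (fun j => cls j = k)).card = n) → ∀ U : Finset (J × Bool × Bool),
  (∀ i ∈ U, ∀ j ∈ U, LJ cls i j = LJ cls j i) → U.card ≤ 6 * n

/-- SV: upper bound sieve for linear forms with prescribed small prime factors. -/
def SV : Prop := ∀ (J : Type) [Fintype J] [DecidableEq J] (α β : J → ℤ), (∀ j, α j ≠ 0) →
  (∀ j l, j ≠ l → α j * β l ≠ α l * β j) → ∃ z0 : ℕ, ∀ z, z0 ≤ z → ∃ (C : ℝ) (K y0 : ℕ), 1 ≤ K ∧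
  ∀ X y : ℕ, y0 ≤ y → z < y → y ^ K ≤ X → ∀ s ∈ Tup J z y, (∏ j, s j) ^ 4 ≤ X →
    (((Icc 1 X).filter (fun t : ℕ => ∀ j, Int.gcd (α j * t + β j) (PP z y) = s j)).card : ℝ) ≤
      C * X * (∏ j, gw 1 (Fintype.card J) (s j)) / (Real.log y) ^ (Fintype.card J)

/-- LOC: local condition at a prime that divides `A` exactly once. `d` is a square class. -/
def LOC : Prop := ∀ (p : ℕ) [Fact p.Prime] (A B : ℤ), p ≠ 2 → (p : ℤ) ∣ A → ¬ (p : ℤ) ^ 2 ∣ A →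
  ¬ (p : ℤ) ∣ B → ∀ x y : ℚ, y ≠ 0 → y ^ 2 = x * (x - A) * (x - B) →
    Even (padicValRat p (x - B)) ∧ (Even (padicValRat p x) ↔ Even (padicValRat p (x - A))) ∧
    (Even (padicValRat p x) → IsSquare ((x - B : ℚ) : ℚ_[p])) ∧
    (¬ Even (padicValRat p x) → IsSquare ((-B * (x - B) : ℚ) : ℚ_[p]))

/-- GOOD: at a prime of good reduction all valuations are even. -/
def GOOD : Prop := ∀ (p : ℕ) [Fact p.Prime] (A B : ℤ), ¬ (p : ℤ) ∣ 2 * A * B * (A - B) →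
  ∀ x y : ℚ, y ≠ 0 → y ^ 2 = x * (x - A) * (x - B) →
    Even (padicValRat p x) ∧ Even (padicValRat p (x - A)) ∧ Even (padicValRat p (x - B))

/-- HALF: two points with the same square classes are equal modulo `2 E(ℚ)`; from
`Pool.Agent.H437R2.Man.MW.add_double`; and `E(ℚ)` is finitely generated (`MW.pt_fg`). -/
def HALF : Prop := ∀ A B : ℤ, A ≠ 0 → B ≠ 0 → A ≠ B →
  AddGroup.FG (EAB A B).toAffine.Point ∧
  (∀ (x y x' y' : ℚ) (h : (EAB A B).toAffine.Nonsingular x y)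
    (h' : (EAB A B).toAffine.Nonsingular x' y'), y ≠ 0 → y' ≠ 0 → IsSquare (x * x') →
    IsSquare ((x - A) * (x' - A)) → IsSquare ((x - B) * (x' - B)) →
    ∃ Q : (EAB A B).toAffine.Point,
      (WeierstrassCurve.Affine.Point.some x y h : (EAB A B).toAffine.Point) =
        WeierstrassCurve.Affine.Point.some x' y' h' + (Q + Q)) ∧
  (∀ x y : ℚ, (EAB A B).toAffine.Nonsingular x y ↔ y ^ 2 = x * (x - A) * (x - B)) ∧
  {P : (EAB A B).toAffine.Point | P = 0 ∨ ∃ (x : ℚ) (h : (EAB A B).toAffine.Nonsingular x 0),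
    P = WeierstrassCurve.Affine.Point.some x 0 h}.ncard ≤ 4

/-- RKB: rank of a finitely generated abelian group and cosets of `2 G`. -/
def RKB : Prop := ∀ (G : Type) [AddCommGroup G], AddGroup.FG G → ∀ (N : ℕ) (T : Finset G),
  T.card ≤ N → (∀ g : G, ∃ t ∈ T, ∃ q : G, g = t + (q + q)) → 2 ^ Module.finrank ℤ G ≤ N

/-- DESC: the 2-descent. -/
def DESC : Prop := ∀ (J : Type) [Fintype J] [DecidableEq J] (cls : J → Fin 3) (κ : J → ℤ)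
  (s : J → ℕ) (A B : ℤ), A ≠ 0 → B ≠ 0 → A ≠ B →
  (∀ j, Odd (s j)) → (∀ j, Squarefree (s j)) → (∀ i j, i ≠ j → (s i).Coprime (s j)) →
  (∀ j, cls j = 0 → ∀ p : ℕ, p.Prime → p ∣ s j → (p : ℤ) ∣ A ∧ ¬ (p : ℤ) ^ 2 ∣ A ∧
    ¬ (p : ℤ) ∣ B ∧ jacobiSym (κ j * (-B)) p = 1) →
  (∀ j, cls j = 1 → ∀ p : ℕ, p.Prime → p ∣ s j → (p : ℤ) ∣ B ∧ ¬ (p : ℤ) ^ 2 ∣ B ∧
    ¬ (p : ℤ) ∣ A ∧ jacobiSym (κ j * (-A)) p = 1) →
  (∀ j, cls j = 2 → ∀ p : ℕ, p.Prime → p ∣ s j → (p : ℤ) ∣ A - B ∧ ¬ (p : ℤ) ^ 2 ∣ A - B ∧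
    ¬ (p : ℤ) ∣ A ∧ jacobiSym (κ j * A) p = 1) →
  2 ^ Module.finrank ℤ (EAB A B).toAffine.Point ≤
    4 ^ (((2 * A * B * (A - B)).natAbs.primeFactors.filter (fun q => ∀ j, ¬ q ∣ s j)).card + 2) *
      NN cls κ s

end Pool.Agent.W262.RK
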